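import Mathlib
import Pool.Agent.Helper96.BlockIndep

set_option autoImplicit false
open MeasureTheory ProbabilityTheory Set Filter Topology unitInterval

namespace Pool.Agent.Results.MP_e2d9cc_pr.NonHamiltonianGraphon

/-- A graphon on `Ω`: a symmetric measurable function `Ω × Ω → [0,1]`. -/
structure Graphon (Ω : Type) [MeasurableSpace Ω] where
  W : Ω → Ω → ℝ
  measurable : Measurable (Function.uncurry W)
  symm : ∀ x y, W x y = W y x
  nonneg : ∀ x y, 0 ≤ W x y
  le_one : ∀ x y, W x y ≤ 1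

variable {Ω : Type} [MeasurableSpace Ω]

/-- The graph on `Fin n` built from vertex types `X` and edge variables `U`:
`i ≠ j` are adjacent iff `U {i,j} < W (X i, X j)`. -/
def sampleGraph (W : Graphon Ω) {n : ℕ} (X : Fin n → Ω) (U : Sym2 (Fin n) → I) :
    SimpleGraph (Fin n) where
  Adj i j := i ≠ j ∧ (U s(i, j) : ℝ) < W.W (X i) (X j)
  symm := by
    constructor
    intro i j h
    refine ⟨h.1.symm, ?_⟩
    rw [Sym2.eq_swap, W.symm]
    exact h.2
  loopless := ⟨fun i h => h.1 rfl⟩

/-- The law of the random input: i.i.d. vertex types with law `μ`, and independently i.i.d.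
uniform edge variables. -/
noncomputable def inputLaw (μ : Measure Ω) (n : ℕ) :
    Measure ((Fin n → Ω) × (Sym2 (Fin n) → I)) :=
  (Measure.pi fun _ : Fin n => μ).prod (Measure.pi fun _ : Sym2 (Fin n) => (volume : Measure I))

/-- The probability that `𝔾(n,W)` is Hamiltonian. -/
noncomputable def hamiltonProb (μ : Measure Ω) (W : Graphon Ω) (n : ℕ) : ENNReal :=
  inputLaw μ n {ω | (sampleGraph W ω.1 ω.2).IsHamiltonian}

/-- `W` is connected. -/
def IsConnected (μ : Measure Ω) (W : Graphon Ω) : Prop :=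
  ∀ S : Set Ω, MeasurableSet S → 0 < μ S → 0 < μ Sᶜ →
    0 < ∫ z in S ×ˢ Sᶜ, W.W z.1 z.2 ∂(μ.prod μ)

/-- Degree function of a graphon. -/
noncomputable def degree (μ : Measure Ω) (W : Graphon Ω) (x : Ω) : ℝ := ∫ y, W.W x y ∂μ

/-- The set `D_W(α)` of points of degree at most `α`. -/
def lowDegree (μ : Measure Ω) (W : Graphon Ω) (α : ℝ) : Set Ω := {x | degree μ W x ≤ α}

/-- Condition (ii): `μ (D_W(α)) / α → ∞` as `α ↘ 0`. -/
def ManyLowDegree (μ : Measure Ω) (W : Graphon Ω) : Prop :=
  Tendsto (fun α : ℝ => (μ (lowDegree μ W α)).toReal / α) (𝓝[>] 0) atTop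

/-- Condition (iii): `W` has a narrow peninsula. -/
def HasNarrowPeninsula (μ : Measure Ω) (W : Graphon Ω) : Prop :=
  ∃ a : ℝ, 0 < a ∧ a ≤ 1/2 ∧ ∃ A B : Set Ω, MeasurableSet A ∧ MeasurableSet B ∧ Disjoint A B ∧
    ENNReal.ofReal a < μ A ∧ μ B = ENNReal.ofReal (1 - 2 * a) ∧
    ∀ᵐ z ∂(μ.prod μ), z ∈ A ×ˢ (A ∪ B) → W.W z.1 z.2 = 0

/-- Condition (iv): `W` is balanced bipartite. -/
def IsHalfBipartite (μ : Measure Ω) (W : Graphon Ω) : Prop :=
  ∃ S : Set Ω, MeasurableSet S ∧ μ S = 1/2 ∧ μ Sᶜ = 1/2 ∧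
    ∀ᵐ z ∂(μ.prod μ), z ∈ (S ×ˢ S) ∪ (Sᶜ ×ˢ Sᶜ) → W.W z.1 z.2 = 0

/-! ### The construction -/

/-- thresholds -/
noncomputable def t (j : ℕ) : ℝ := (1/2) ^ (j ^ 2)

lemma t_pos (j : ℕ) : 0 < t j := by unfold t; positivity

lemma t_le_one (j : ℕ) : t j ≤ 1 := by
  unfold t; exact pow_le_one₀ (by norm_num) (by norm_num)

lemma t_anti {i j : ℕ} (h : i ≤ j) : t j ≤ t i := by
  unfold t
  exact pow_le_pow_of_le_one (by norm_num) (by norm_num) (Nat.pow_le_pow_left h 2)

lemma t_succ (j : ℕ) : t (j + 1) = t j * (1/2) ^ (2 * j + 1) := by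
  unfold t; rw [← pow_add]; congr 1; ring

lemma t_succ_le (j : ℕ) : t (j + 1) ≤ t j / 2 := by
  rw [t_succ, pow_succ, div_eq_mul_one_div]
  have h1 : ((1:ℝ)/2) ^ (2 * j) ≤ 1 := pow_le_one₀ (by norm_num) (by norm_num)
  have h2 := t_pos j
  have : t j * ((1/2) ^ (2 * j) * (1/2)) ≤ t j * (1 * (1/2)) := by gcongr
  linarith

/-- class index -/
noncomputable def cl (x : I) : ℕ := ⌊√(-Real.logb 2 (x : ℝ))⌋₊

lemma measurable_cl : Measurable cl := by
  unfold cl
  refine Nat.measurable_floor.comp ?_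
  refine Real.continuous_sqrt.measurable.comp ?_
  refine Measurable.neg ?_
  exact (Real.measurable_log.comp measurable_subtype_coe).div_const _

lemma le_cl_iff {j : ℕ} (hj : 1 ≤ j) (x : I) : j ≤ cl x ↔ 0 < (x : ℝ) ∧ (x : ℝ) ≤ t j := by
  unfold cl
  rw [Nat.le_floor_iff (Real.sqrt_nonneg _), Real.le_sqrt' (by positivity)]
  rcases (x.2.1).lt_or_eq with h | h
  · have h1 : (j:ℝ) ^ 2 ≤ -Real.logb 2 (x:ℝ) ↔ Real.logb 2 (x:ℝ) ≤ -(j:ℝ) ^ 2 := by
      constructor <;> intro h <;> linarith
    rw [h1, Real.logb_le_iff_le_rpow (by norm_num) h]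
    have h2 : (2:ℝ) ^ (-(j:ℝ) ^ 2) = t j := by
      unfold t
      rw [Real.rpow_neg (by norm_num), one_div, inv_pow]
      congr 1
      exact_mod_cast Real.rpow_natCast 2 (j ^ 2)
    rw [h2]
    exact ⟨fun h' => ⟨h, h'⟩, fun h' => h'.2⟩
  · rw [← h]
    simp only [Real.logb_zero, neg_zero, lt_irrefl, false_and, iff_false, not_le]
    positivity

/-- weights -/
noncomputable def s (j : ℕ) : ℝ := if j = 0 then 1 else t (j + 1)

lemma s_pos (j : ℕ) : 0 < s j := by
  unfold s; split_ifs
  · norm_num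
  · exact t_pos _

lemma s_le_one (j : ℕ) : s j ≤ 1 := by
  unfold s; split_ifs
  · norm_num
  · exact t_le_one _

lemma le_s {i j : ℕ} (h : i ≤ j) : t (j + 1) ≤ s i := by
  unfold s; split_ifs
  · exact t_le_one _
  · exact t_anti (by omega)

/-- The graphon. -/
noncomputable def Wex : Graphon I where
  W x y := if cl x = 0 ∨ cl y = 0 then s (cl x) * s (cl y) else 0
  measurable := by
    have h : Measurable (fun p : ℕ × ℕ => if p.1 = 0 ∨ p.2 = 0 then s p.1 * s p.2 else (0:ℝ)) :=
      Measurable.of_discrete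
    exact h.comp (measurable_cl.prodMap measurable_cl)
  symm x y := by
    by_cases h : cl x = 0 ∨ cl y = 0
    · rw [if_pos h, if_pos h.symm, mul_comm]
    · rw [if_neg h, if_neg (fun h' => h h'.symm)]
  nonneg x y := by
    have := s_pos (cl x); have := s_pos (cl y)
    split_ifs
    · positivity
    · exact le_rfl
  le_one x y := by
    have := s_pos (cl x); have := s_pos (cl y)
    have := s_le_one (cl x); have := s_le_one (cl y)
    split_ifs
    · nlinarith
    · norm_num

lemma Wex_apply (x y : I) :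
    Wex.W x y = if cl x = 0 ∨ cl y = 0 then s (cl x) * s (cl y) else 0 := rfl

lemma volume_le_cl {j : ℕ} (hj : 1 ≤ j) : volume {x : I | j ≤ cl x} = ENNReal.ofReal (t j) := by
  have h : {x : I | j ≤ cl x} = Ioc 0 (⟨t j, (t_pos j).le, t_le_one j⟩ : I) := by
    ext x
    simp only [mem_ofPred_eq, le_cl_iff hj, mem_Ioc]
    rw [← Subtype.coe_lt_coe, ← Subtype.coe_le_coe]
    simp
  rw [h, unitInterval.volume_Ioc]
  simp

lemma volume_cl_zero : volume {x : I | cl x = 0} = ENNReal.ofReal (1/2) := by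
  have h : {x : I | cl x = 0} = {x : I | 1 ≤ cl x}ᶜ := by
    ext x; simp only [mem_ofPred_eq, mem_compl_iff, not_le, Nat.lt_one_iff]
  have hm : MeasurableSet {x : I | 1 ≤ cl x} := measurable_cl measurableSet_Ici
  rw [h, prob_compl_eq_one_sub hm, volume_le_cl le_rfl]
  have : t 1 = 1/2 := by unfold t; norm_num
  rw [this, ← ENNReal.ofReal_one, ← ENNReal.ofReal_sub _ (by norm_num)]
  norm_num

lemma measurableSet_cl (j : ℕ) : MeasurableSet {x : I | cl x = j} :=
  measurable_cl (measurableSet_singleton j)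

lemma volume_cl_eq {j : ℕ} (hj : 1 ≤ j) :
    volume {x : I | cl x = j} = ENNReal.ofReal (t j - t (j + 1)) := by
  have h : {x : I | cl x = j} = {x : I | j ≤ cl x} \ {x : I | j + 1 ≤ cl x} := by
    ext x; simp only [mem_ofPred_eq, Set.mem_sdiff, not_le]; omega
  have hm : MeasurableSet {x : I | j + 1 ≤ cl x} := measurable_cl measurableSet_Ici
  rw [h, measure_sdiff _ hm.nullMeasurableSet (measure_ne_top _ _), volume_le_cl hj,
    volume_le_cl (by omega), ENNReal.ofReal_sub _ (t_pos _).le]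
  intro x hx
  simp only [mem_ofPred_eq] at hx ⊢
  omega

lemma Wex_pos_left {x y : I} (hx : cl x = 0) : 0 < Wex.W x y := by
  rw [Wex_apply, if_pos (Or.inl hx)]
  have := s_pos (cl x); have := s_pos (cl y); positivity

lemma Wex_pos_right {x y : I} (hy : cl y = 0) : 0 < Wex.W x y := by
  rw [Wex_apply, if_pos (Or.inr hy)]
  have := s_pos (cl x); have := s_pos (cl y); positivity

lemma integrable_Wex : Integrable (fun z : I × I => Wex.W z.1 z.2)
    ((volume : Measure I).prod volume) := by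
  refine Integrable.of_bound Wex.measurable.aestronglyMeasurable 1 (Eventually.of_forall ?_)
  rintro ⟨x, y⟩
  rw [Real.norm_of_nonneg (Wex.nonneg x y)]
  exact Wex.le_one x y

lemma degree_ge (x : I) : s (cl x) / 2 ≤ degree volume Wex x := by
  unfold degree
  have hint : Integrable (fun y => Wex.W x y) (volume : Measure I) := by
    refine Integrable.of_bound (Wex.measurable.comp measurable_prodMk_left).aestronglyMeasurable 1
      (Eventually.of_forall ?_)
    intro y
    rw [Real.norm_of_nonneg (Wex.nonneg x y)]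
    exact Wex.le_one x y
  have h1 : ∫ y in {y : I | cl y = 0}, Wex.W x y ≤ ∫ y, Wex.W x y :=
    setIntegral_le_integral hint (Eventually.of_forall fun y => Wex.nonneg x y)
  have h2 : ∫ y in {y : I | cl y = 0}, Wex.W x y = ∫ y in {y : I | cl y = 0}, s (cl x) := by
    refine setIntegral_congr_fun (measurableSet_cl 0) (fun y hy => ?_)
    simp only [mem_ofPred_eq] at hy
    rw [Wex_apply, if_pos (Or.inr hy), hy]
    simp [s]
  rw [h2, setIntegral_const, Measure.real, volume_cl_zero, ENNReal.toReal_ofReal (by norm_num)] at h1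
  simp only [smul_eq_mul] at h1
  linarith

theorem not_manyLowDegree : ¬ ManyLowDegree volume Wex := by
  intro h
  unfold ManyLowDegree at h
  have hseq : Tendsto (fun j : ℕ => t (j + 1) / 4) atTop (𝓝[>] 0) := by
    rw [tendsto_nhdsWithin_iff]
    constructor
    · have h1 : Tendsto (fun j : ℕ => ((1:ℝ)/2) ^ j) atTop (𝓝 0) :=
        tendsto_pow_atTop_nhds_zero_of_lt_one (by norm_num) (by norm_num)
      refine squeeze_zero (fun j => by have := t_pos (j + 1); positivity) (fun j => ?_) h1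
      unfold t
      have : ((1:ℝ)/2) ^ ((j + 1) ^ 2) ≤ (1/2) ^ j :=
        pow_le_pow_of_le_one (by norm_num) (by norm_num) (by nlinarith)
      have h0 : (0:ℝ) < (1/2) ^ j := by positivity
      linarith
    · exact Eventually.of_forall fun j => by
        have := t_pos (j + 1); simp only [mem_Ioi]; positivity
  have h2 := h.comp hseq
  have h3 := (h2.eventually (eventually_gt_atTop 4)).exists
  obtain ⟨j, hj⟩ := h3
  simp only [Function.comp] at hj
  have hsub : lowDegree volume Wex (t (j + 1) / 4) ⊆ {x : I | j + 1 ≤ cl x} := by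
    intro x hx
    simp only [lowDegree, mem_ofPred_eq] at hx ⊢
    by_contra hcon
    have h4 := degree_ge x
    have h5 : t (j + 1) ≤ s (cl x) := le_s (by omega)
    have := t_pos (j + 1)
    linarith
  have h6 : (volume (lowDegree volume Wex (t (j + 1) / 4))).toReal ≤ t (j + 1) := by
    have := measure_mono (μ := (volume : Measure I)) hsub
    rw [volume_le_cl (by omega)] at this
    exact ENNReal.toReal_le_of_le_ofReal (t_pos _).le this
  have h7 := t_pos (j + 1)
  rw [lt_div_iff₀ (by positivity)] at hj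
  linarith

theorem isConnected_Wex : IsConnected volume Wex := by
  intro S hS hS0 hSc0
  have hnn : 0 ≤ᵐ[((volume : Measure I).prod volume).restrict (S ×ˢ Sᶜ)]
      (fun z : I × I => Wex.W z.1 z.2) := Eventually.of_forall fun z => Wex.nonneg _ _
  rw [setIntegral_pos_iff_support_of_nonneg_ae hnn integrable_Wex.integrableOn]
  by_contra hcon
  have h0 : ((volume : Measure I).prod volume)
      (Function.support (fun z : I × I => Wex.W z.1 z.2) ∩ S ×ˢ Sᶜ) = 0 := by
    simpa using hcon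
  have h1 : ((volume : Measure I).prod volume) ((S ∩ {x | cl x = 0}) ×ˢ Sᶜ) = 0 := by
    refine measure_mono_null ?_ h0
    rintro ⟨x, y⟩ ⟨hx, hy⟩
    exact ⟨(Wex_pos_left (x := x) (y := y) hx.2).ne', hx.1, hy⟩
  have h2 : ((volume : Measure I).prod volume) (S ×ˢ (Sᶜ ∩ {x | cl x = 0})) = 0 := by
    refine measure_mono_null ?_ h0
    rintro ⟨x, y⟩ ⟨hx, hy⟩
    exact ⟨(Wex_pos_right (x := x) (y := y) hy.2).ne', hx, hy.1⟩
  rw [Measure.prod_prod, mul_eq_zero] at h1 h2
  have h3 : volume (S ∩ {x : I | cl x = 0}) = 0 := by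
    rcases h1 with h | h
    · exact h
    · exact absurd h hSc0.ne'
  have h4 : volume (Sᶜ ∩ {x : I | cl x = 0}) = 0 := by
    rcases h2 with h | h
    · exact absurd h hS0.ne'
    · exact h
  have h5 : volume {x : I | cl x = 0} = 0 := by
    refine measure_mono_null ?_ (measure_union_null h3 h4)
    intro x hx
    by_cases hxS : x ∈ S
    · exact Or.inl ⟨hxS, hx⟩
    · exact Or.inr ⟨hxS, hx⟩
  rw [volume_cl_zero] at h5
  simp at h5

theorem not_narrowPeninsula : ¬ HasNarrowPeninsula volume Wex := by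
  rintro ⟨a, ha0, ha1, A, B, hA, hB, hAB, hμA, hμB, hW⟩
  have h1 : ((volume : Measure I).prod volume) (A ×ˢ ((A ∪ B) ∩ {x | cl x = 0})) = 0 := by
    refine measure_mono_null ?_ hW
    rintro ⟨x, y⟩ ⟨hx, hy⟩ hcon
    exact (Wex_pos_right (x := x) (y := y) hy.2).ne' (hcon ⟨hx, hy.1⟩)
  rw [Measure.prod_prod, mul_eq_zero] at h1
  have h2 : volume ((A ∪ B) ∩ {x : I | cl x = 0}) = 0 := by
    rcases h1 with h | h
    · rw [h] at hμA; exact absurd hμA (by simp)
    · exact h
  have h3 : volume (A ∪ B) ≤ ENNReal.ofReal (1/2) := by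
    calc volume (A ∪ B) ≤ volume ((A ∪ B) ∩ {x : I | cl x = 0}) + volume {x : I | 1 ≤ cl x} := by
          refine (measure_mono ?_).trans (measure_union_le _ _)
          intro x hx
          by_cases h : cl x = 0
          · exact Or.inl ⟨hx, h⟩
          · exact Or.inr (by simp only [mem_ofPred_eq]; omega)
      _ = ENNReal.ofReal (1/2) := by
          rw [h2, zero_add, volume_le_cl le_rfl]; unfold t; norm_num
  rw [measure_union hAB hB, hμB] at h3
  have h4 : ENNReal.ofReal a + ENNReal.ofReal (1 - 2 * a) < ENNReal.ofReal (1/2) := by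
    refine lt_of_lt_of_le ?_ h3
    exact ENNReal.add_lt_add_right ENNReal.ofReal_ne_top hμA
  rw [← ENNReal.ofReal_add ha0.le (by linarith), ENNReal.ofReal_lt_ofReal_iff (by norm_num)] at h4
  linarith

theorem not_halfBipartite : ¬ IsHalfBipartite volume Wex := by
  rintro ⟨S, hS, hμS, hμSc, hW⟩
  have h1 : ((volume : Measure I).prod volume)
      ((S ∩ {x | cl x = 0}) ×ˢ (S ∩ {x | cl x = 0})) = 0 := by
    refine measure_mono_null ?_ hW
    rintro ⟨x, y⟩ ⟨hx, hy⟩ hcon
    exact (Wex_pos_right (x := x) (y := y) hy.2).ne' (hcon (Or.inl ⟨hx.1, hy.1⟩))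
  have h2 : ((volume : Measure I).prod volume)
      ((Sᶜ ∩ {x | cl x = 0}) ×ˢ (Sᶜ ∩ {x | cl x = 0})) = 0 := by
    refine measure_mono_null ?_ hW
    rintro ⟨x, y⟩ ⟨hx, hy⟩ hcon
    exact (Wex_pos_right (x := x) (y := y) hy.2).ne' (hcon (Or.inr ⟨hx.1, hy.1⟩))
  rw [Measure.prod_prod, mul_self_eq_zero] at h1 h2
  have h5 : volume {x : I | cl x = 0} = 0 := by
    refine measure_mono_null ?_ (measure_union_null h1 h2)
    intro x hx
    by_cases hxS : x ∈ S
    · exact Or.inl ⟨hxS, hx⟩
    · exact Or.inr ⟨hxS, hx⟩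
  rw [volume_cl_zero] at h5
  simp at h5

/-! ### The probability estimate -/

/-- no isolated vertex in class `j` -/
def noIso (n j : ℕ) : Set ((Fin n → I) × (Sym2 (Fin n) → I)) :=
  {ω | ∀ i, cl (ω.1 i) = j → ∃ k, cl (ω.1 k) = 0 ∧ (ω.2 s(i, k) : ℝ) < t (j + 1)}

lemma ham_subset {n j : ℕ} (hn : 2 ≤ n) (hj : 1 ≤ j) :
    {ω : (Fin n → I) × (Sym2 (Fin n) → I) | (sampleGraph Wex ω.1 ω.2).IsHamiltonian} ⊆
      noIso n j := by
  intro ω hω i hi
  simp only [mem_ofPred_eq] at hω
  have hconn := hω.connected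
  have : Nontrivial (Fin n) := Fin.nontrivial_iff_two_le.2 hn
  obtain ⟨k, hk⟩ := hconn.preconnected.exists_adj_of_nontrivial i
  obtain ⟨hne, hlt⟩ := hk
  have hc : cl (ω.1 k) = 0 := by
    by_contra hcon
    rw [Wex_apply, if_neg (by omega)] at hlt
    exact absurd hlt (not_lt.2 (ω.2 s(i,k)).2.1)
  refine ⟨k, hc, ?_⟩
  rw [Wex_apply, if_pos (Or.inr hc), hi, hc] at hlt
  unfold s at hlt
  rw [if_neg (by omega), if_pos rfl, mul_one] at hlt
  exact hlt

lemma measurableSet_noIso (n j : ℕ) : MeasurableSet (noIso n j) := by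
  unfold noIso
  have h1 : ∀ (i : Fin n) (l : ℕ),
      MeasurableSet {ω : (Fin n → I) × (Sym2 (Fin n) → I) | cl (ω.1 i) = l} := by
    intro i l
    have : Measurable (fun ω : (Fin n → I) × (Sym2 (Fin n) → I) => cl (ω.1 i)) :=
      measurable_cl.comp ((measurable_pi_apply i).comp measurable_fst)
    exact this (measurableSet_singleton l)
  have h2 : ∀ (e : Sym2 (Fin n)) (u : ℝ),
      MeasurableSet {ω : (Fin n → I) × (Sym2 (Fin n) → I) | (ω.2 e : ℝ) < u} := by
    intro e u
    have : Measurable (fun ω : (Fin n → I) × (Sym2 (Fin n) → I) => (ω.2 e : ℝ)) :=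
      measurable_subtype_coe.comp ((measurable_pi_apply e).comp measurable_snd)
    exact measurableSet_lt this measurable_const
  rw [ofPred_forall]
  refine MeasurableSet.iInter fun i => ?_
  have : {ω : (Fin n → I) × (Sym2 (Fin n) → I) | cl (ω.1 i) = j →
      ∃ k, cl (ω.1 k) = 0 ∧ (ω.2 s(i, k) : ℝ) < t (j + 1)} =
      {ω | cl (ω.1 i) = j}ᶜ ∪ ⋃ k, ({ω | cl (ω.1 k) = 0} ∩ {ω | (ω.2 s(i, k) : ℝ) < t (j + 1)}) := by
    ext ω
    simp only [mem_ofPred_eq, mem_union, mem_compl_iff, mem_iUnion, mem_inter_iff]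
    tauto
  rw [this]
  exact (h1 i j).compl.union (MeasurableSet.iUnion fun k => (h1 k 0).inter (h2 _ _))

lemma volume_Ici_I {w : ℝ} (hw0 : 0 ≤ w) (hw1 : w ≤ 1) :
    volume {u : I | w ≤ (u : ℝ)} = ENNReal.ofReal (1 - w) := by
  have : {u : I | w ≤ (u : ℝ)} = Ici (⟨w, hw0, hw1⟩ : I) := by
    ext u; simp only [mem_ofPred_eq, mem_Ici, ← Subtype.coe_le_coe]
  rw [this, unitInterval.volume_Ici]

lemma section_bound {n j : ℕ} (hj : 1 ≤ j) (X : Fin n → I) :
    (Measure.pi fun _ : Sym2 (Fin n) => (volume : Measure I)) (Prod.mk X ⁻¹' noIso n j) ≤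
      ∏ i : Fin n, (if cl (X i) = j then ENNReal.ofReal (1 - (1 - t (j + 1)) ^ n) else 1) := by
  classical
  set P := (Measure.pi fun _ : Sym2 (Fin n) => (volume : Measure I)) with hP
  set w := t (j + 1) with hw
  have hw0 : 0 < w := t_pos _
  have hw1 : w ≤ 1 := t_le_one _
  set K : Finset (Fin n) := Finset.univ.filter (fun k => cl (X k) = 0) with hK
  set J : Finset (Fin n) := Finset.univ.filter (fun k => cl (X k) = j) with hJ
  let A : Fin n → Set (Sym2 (Fin n) → I) := fun i => {U | ∃ k ∈ K, (U s(i, k) : ℝ) < w}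
  let B : Fin n → Set (Sym2 (Fin n)) := fun i => {e | ∃ k ∈ K, s(i, k) = e}
  have hind : iIndep (fun e : Sym2 (Fin n) =>
      MeasurableSpace.comap (fun U : Sym2 (Fin n) → I => U e) inferInstance) P := by
    have h := iIndepFun_pi (μ := fun _ : Sym2 (Fin n) => (volume : Measure I))
      (X := fun _ : Sym2 (Fin n) => (id : I → I)) (fun _ => measurable_id.aemeasurable)
    exact (iIndepFun_iff_iIndep _ _ _).1 h
  have hle : ∀ e : Sym2 (Fin n),
      MeasurableSpace.comap (fun U : Sym2 (Fin n) → I => U e) inferInstance ≤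
        (inferInstance : MeasurableSpace (Sym2 (Fin n) → I)) := fun e =>
    (measurable_pi_apply e).comap_le
  have hBdisj : ∀ a ∈ J, ∀ b ∈ J, a ≠ b → Disjoint (B a) (B b) := by
    intro a ha b hb hab
    rw [Set.disjoint_left]
    rintro e ⟨k, hk, rfl⟩ ⟨l, hl, hle⟩
    rw [Sym2.eq_iff] at hle
    rcases hle with ⟨h1, -⟩ | ⟨h1, h2⟩
    · exact hab h1.symm
    · rw [hJ, Finset.mem_filter] at hb
      rw [hK, Finset.mem_filter] at hk
      rw [h1] at hb
      omega
  have hAmeas : ∀ a ∈ J, MeasurableSet[⨆ e ∈ B a,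
      MeasurableSpace.comap (fun U : Sym2 (Fin n) → I => U e) inferInstance] (A a) := by
    intro a _
    have hA : A a = ⋃ k ∈ K, {U | (U s(a, k) : ℝ) < w} := by
      ext U; simp [A]
    rw [hA]
    refine MeasurableSet.biUnion K.countable_toSet (fun k hk => ?_)
    have h1 : MeasurableSpace.comap (fun U : Sym2 (Fin n) → I => U s(a, k)) inferInstance ≤
        ⨆ e ∈ B a, MeasurableSpace.comap (fun U : Sym2 (Fin n) → I => U e) inferInstance :=
      le_iSup₂_of_le s(a, k) ⟨k, hk, rfl⟩ le_rfl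
    refine h1 _ ?_
    exact ⟨{u : I | (u : ℝ) < w}, measurableSet_lt measurable_subtype_coe measurable_const, rfl⟩
  have hsub : Prod.mk X ⁻¹' noIso n j ⊆ ⋂ i ∈ J, A i := by
    intro U hU
    simp only [mem_iInter]
    intro i hi
    rw [hJ, Finset.mem_filter] at hi
    obtain ⟨k, hk1, hk2⟩ := hU i hi.2
    exact ⟨k, by rw [hK, Finset.mem_filter]; exact ⟨Finset.mem_univ _, hk1⟩, hk2⟩
  have hAi : ∀ i, P (A i) ≤ ENNReal.ofReal (1 - (1 - w) ^ n) := by
    intro i
    have hAm : MeasurableSet (A i) := by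
      have hA : A i = ⋃ k ∈ K, {U | (U s(i, k) : ℝ) < w} := by
        ext U; simp [A]
      rw [hA]
      refine MeasurableSet.biUnion K.countable_toSet (fun k _ => ?_)
      exact measurableSet_lt (measurable_subtype_coe.comp (measurable_pi_apply _)) measurable_const
    have hAc : ENNReal.ofReal ((1 - w) ^ n) ≤ P (A i)ᶜ := by
      have heq : (A i)ᶜ = Set.pi univ (fun e : Sym2 (Fin n) =>
          if e ∈ B i then {u : I | w ≤ (u : ℝ)} else univ) := by
        ext U
        simp only [mem_compl_iff, mem_ofPred_eq, A, not_exists, not_and, not_lt, Set.mem_pi, mem_univ,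
          true_imp_iff]
        constructor
        · intro h e
          by_cases he : e ∈ B i
          · rw [if_pos he]
            obtain ⟨k, hk, rfl⟩ := he
            exact h k hk
          · rw [if_neg he]; exact mem_univ _
        · intro h k hk
          have := h s(i, k)
          rwa [if_pos (show s(i, k) ∈ B i from ⟨k, hk, rfl⟩)] at this
      rw [heq, hP, Measure.pi_pi]
      have h2 : ∀ e : Sym2 (Fin n), volume (if e ∈ B i then {u : I | w ≤ (u : ℝ)} else univ) =
          if e ∈ B i then ENNReal.ofReal (1 - w) else 1 := by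
        intro e
        split_ifs
        · exact volume_Ici_I hw0.le hw1
        · exact measure_univ
      simp_rw [h2]
      rw [Finset.prod_ite, Finset.prod_const, Finset.prod_const_one, mul_one,
        ← ENNReal.ofReal_pow (by linarith)]
      apply ENNReal.ofReal_le_ofReal
      apply pow_le_pow_of_le_one (by linarith) (by linarith)
      have h3 : (Finset.univ.filter (fun e : Sym2 (Fin n) => e ∈ B i)) ⊆
          K.image (fun k => s(i, k)) := by
        intro e he
        rw [Finset.mem_filter] at he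
        obtain ⟨k, hk, rfl⟩ := he.2
        exact Finset.mem_image_of_mem _ hk
      calc _ ≤ (K.image (fun k => s(i, k))).card := Finset.card_le_card h3
        _ ≤ K.card := Finset.card_image_le
        _ ≤ (Finset.univ : Finset (Fin n)).card := Finset.card_le_card (Finset.filter_subset _ _)
        _ = n := by simp
    have h4 : P (A i) = 1 - P (A i)ᶜ := by
      rw [prob_compl_eq_one_sub hAm, ENNReal.sub_sub_cancel ENNReal.one_ne_top prob_le_one]
    rw [h4, ENNReal.ofReal_sub _ (by have : 0 ≤ 1 - w := by linarith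
                                     positivity), ENNReal.ofReal_one]
    exact tsub_le_tsub_left hAc 1
  calc P (Prod.mk X ⁻¹' noIso n j) ≤ P (⋂ i ∈ J, A i) := measure_mono hsub
    _ = ∏ i ∈ J, P (A i) :=
        Pool.Agent.Helper96.measure_biInter_blocks hle hind B A J hBdisj hAmeas
    _ ≤ ∏ i ∈ J, ENNReal.ofReal (1 - (1 - w) ^ n) := Finset.prod_le_prod' fun i _ => hAi i
    _ = ∏ i : Fin n, (if cl (X i) = j then ENNReal.ofReal (1 - (1 - w) ^ n) else 1) := by
        rw [hJ, Finset.prod_filter]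

lemma prob_bound {n j : ℕ} (hn : 2 ≤ n) (hj : 1 ≤ j) :
    hamiltonProb volume Wex n ≤
      ENNReal.ofReal (Real.exp (-(n * ((t j - t (j + 1)) * (1 - t (j + 1)) ^ n)))) := by
  set q := (1 - t (j + 1)) ^ n with hq
  have ht1 := t_le_one (j + 1)
  have ht0 := t_pos (j + 1)
  have hq0 : 0 ≤ q := by rw [hq]; exact pow_nonneg (by linarith) n
  have hq1 : q ≤ 1 := by rw [hq]; exact pow_le_one₀ (by linarith) (by linarith)
  set b := t j - t (j + 1) with hb
  have hb0 : 0 ≤ b := by have := t_anti (show j ≤ j + 1 by omega); rw [hb]; linarith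
  have hb1 : b ≤ 1 := by have := t_le_one j; rw [hb]; linarith
  let g : I → ENNReal := fun x => if cl x = j then ENNReal.ofReal (1 - q) else 1
  have hg : Measurable g :=
    Measurable.ite (measurableSet_cl j) measurable_const measurable_const
  have hint : ∫⁻ x : I, g x = ENNReal.ofReal (1 - b * q) := by
    have h1 : ∫⁻ x : I, g x = (∫⁻ x in {x : I | cl x = j}, g x) + ∫⁻ x in {x : I | cl x = j}ᶜ, g x :=
      (lintegral_add_compl g (measurableSet_cl j)).symm
    have h2 : ∫⁻ x in {x : I | cl x = j}, g x = ENNReal.ofReal (1 - q) * ENNReal.ofReal b := by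
      rw [setLIntegral_congr_fun (measurableSet_cl j) (g := fun _ => ENNReal.ofReal (1 - q))]
      · rw [setLIntegral_const, volume_cl_eq hj]
      · intro x hx; simp only [mem_ofPred_eq] at hx; simp only [g, if_pos hx]
    have h3 : ∫⁻ x in {x : I | cl x = j}ᶜ, g x = 1 - ENNReal.ofReal b := by
      rw [setLIntegral_congr_fun (measurableSet_cl j).compl (g := fun _ => 1)]
      · rw [setLIntegral_const, one_mul, prob_compl_eq_one_sub (measurableSet_cl j), volume_cl_eq hj]
      · intro x hx; simp only [mem_compl_iff, mem_ofPred_eq] at hx; simp only [g, if_neg hx]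
    rw [h1, h2, h3, ← ENNReal.ofReal_mul (by linarith), ← ENNReal.ofReal_one,
      ← ENNReal.ofReal_sub _ hb0, ← ENNReal.ofReal_add (by nlinarith) (by linarith)]
    congr 1; ring
  calc hamiltonProb volume Wex n ≤ inputLaw volume n (noIso n j) :=
        measure_mono (ham_subset hn hj)
    _ = ∫⁻ X, (Measure.pi fun _ : Sym2 (Fin n) => (volume : Measure I)) (Prod.mk X ⁻¹' noIso n j)
          ∂(Measure.pi fun _ : Fin n => (volume : Measure I)) :=
        Measure.prod_apply (measurableSet_noIso n j)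
    _ ≤ ∫⁻ X, ∏ i : Fin n, g (X i) ∂(Measure.pi fun _ : Fin n => (volume : Measure I)) :=
        lintegral_mono fun X => section_bound hj X
    _ = ∏ i : Fin n, ∫⁻ X, g (X i) ∂(Measure.pi fun _ : Fin n => (volume : Measure I)) := by
        refine lintegral_prod_eq_prod_lintegral_of_indepFun Finset.univ
          (fun i (X : Fin n → I) => g (X i)) ?_ (fun i => hg.comp (measurable_pi_apply i))
        exact iIndepFun_pi (μ := fun _ : Fin n => (volume : Measure I))
          (X := fun _ => g) (fun _ => hg.aemeasurable)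
    _ = ∏ i : Fin n, ENNReal.ofReal (1 - b * q) := by
        refine Finset.prod_congr rfl fun i _ => ?_
        rw [← hint]
        exact (measurePreserving_eval (fun _ : Fin n => (volume : Measure I)) i).lintegral_comp hg
    _ = ENNReal.ofReal ((1 - b * q) ^ n) := by
        rw [Finset.prod_const, Finset.card_univ, Fintype.card_fin,
          ENNReal.ofReal_pow (by nlinarith)]
    _ ≤ ENNReal.ofReal (Real.exp (-(n * (b * q)))) := by
        apply ENNReal.ofReal_le_ofReal
        have h1 : 1 - b * q ≤ Real.exp (-(b * q)) := by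
          have := Real.add_one_le_exp (-(b * q)); linarith
        calc (1 - b * q) ^ n ≤ (Real.exp (-(b * q))) ^ n := by
              gcongr; nlinarith
          _ = Real.exp (-(n * (b * q))) := by
              rw [← Real.exp_nat_mul]; congr 1; ring

lemma one_sub_pow_ge {x : ℝ} (hx0 : 0 ≤ x) (hx : x ≤ 1/2) (n : ℕ) :
    Real.exp (-(2 * (n * x))) ≤ (1 - x) ^ n := by
  have h1 : Real.exp (-(2 * x)) ≤ 1 - x := by
    have h2 : 1 + 2 * x ≤ Real.exp (2 * x) := by
      have := Real.add_one_le_exp (2 * x); linarith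
    rw [Real.exp_neg, inv_le_comm₀ (Real.exp_pos _) (by linarith)]
    refine le_trans ?_ h2
    rw [inv_le_iff_one_le_mul₀ (by linarith)]
    nlinarith
  calc Real.exp (-(2 * (n * x))) = (Real.exp (-(2 * x))) ^ n := by
        rw [← Real.exp_nat_mul]; congr 1; ring
    _ ≤ (1 - x) ^ n := by gcongr

/-- The exponent is large. -/
lemma exponent_large (M : ℝ) : ∀ᶠ n : ℕ in atTop, ∃ j : ℕ, 1 ≤ j ∧
    M ≤ n * ((t j - t (j + 1)) * (1 - t (j + 1)) ^ n) := by
  obtain ⟨L, hL⟩ : ∃ L : ℝ, M ≤ L / 2 * Real.exp (-2) ∧ 0 < L := by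
    refine ⟨max 1 (2 * M * Real.exp 2), ?_, by positivity⟩
    have h1 : 2 * M * Real.exp 2 ≤ max 1 (2 * M * Real.exp 2) := le_max_right _ _
    have h2 : M = (2 * M * Real.exp 2) / 2 * Real.exp (-2) := by
      rw [Real.exp_neg]; field_simp
    calc M = (2 * M * Real.exp 2) / 2 * Real.exp (-2) := h2
      _ ≤ _ := by gcongr
  obtain ⟨j0, hj0⟩ : ∃ j0 : ℕ, ∀ j ≥ j0, M ≤ 2 ^ (2 * j) * (Real.exp (-(2 * L)) / 8) := by
    have h1 : Tendsto (fun j : ℕ => (2:ℝ) ^ (2 * j) * (Real.exp (-(2 * L)) / 8)) atTop atTop := by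
      refine Tendsto.atTop_mul_const (by positivity) ?_
      exact (tendsto_pow_atTop_atTop_of_one_lt (by norm_num : (1:ℝ) < 2)).comp
        (tendsto_id.const_mul_atTop' (by norm_num))
    obtain ⟨j0, hj0⟩ := eventually_atTop.1 (h1.eventually (eventually_ge_atTop M))
    exact ⟨j0, hj0⟩
  filter_upwards [eventually_ge_atTop (2 ^ ((j0 + 2) ^ 2))] with n hn
  set j := Nat.sqrt (Nat.log 2 n) with hj
  have hn0 : n ≠ 0 := by
    intro h; rw [h] at hn; exact absurd hn (by simp)
  have hlog : (j0 + 2) ^ 2 ≤ Nat.log 2 n := Nat.le_log_of_pow_le (by norm_num) hn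
  have hj1 : j0 + 2 ≤ j := by
    rw [hj, Nat.le_sqrt']; exact hlog
  have hle : 2 ^ (j ^ 2) ≤ n := by
    calc 2 ^ (j ^ 2) ≤ 2 ^ (Nat.log 2 n) := Nat.pow_le_pow_right (by norm_num) (Nat.sqrt_le' _)
      _ ≤ n := Nat.pow_log_le_self 2 hn0
  have hlt : n < 2 ^ ((j + 1) ^ 2) := by
    calc n < 2 ^ (Nat.log 2 n + 1) := Nat.lt_pow_succ_log_self (by norm_num) n
      _ ≤ 2 ^ ((j + 1) ^ 2) := Nat.pow_le_pow_right (by norm_num) (Nat.lt_succ_sqrt' _)
  have h1 : 1 ≤ n * t j := by
    have : ((2:ℝ) ^ (j ^ 2)) ≤ n := by exact_mod_cast hle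
    unfold t
    rw [one_div, inv_pow, ← div_eq_mul_inv, le_div_iff₀ (by positivity), one_mul]
    exact this
  have h2 : n * t (j + 1) ≤ 1 := by
    have : (n:ℝ) ≤ 2 ^ ((j + 1) ^ 2) := by exact_mod_cast hlt.le
    unfold t
    rw [one_div, inv_pow, ← div_eq_mul_inv, div_le_iff₀ (by positivity), one_mul]
    exact this
  have hthalf : ∀ i, t (i + 1) ≤ 1/2 := by
    intro i
    have h3 := t_succ_le i
    have h4 := t_le_one i
    linarith
  have hnpos : (0:ℝ) < n := by positivity
  rcases le_or_gt L (n * t j) with hcase | hcase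
  · refine ⟨j, by omega, ?_⟩
    have h5 := one_sub_pow_ge (t_pos (j + 1)).le (hthalf j) n
    have h6 : Real.exp (-2) ≤ (1 - t (j + 1)) ^ n := by
      refine le_trans ?_ h5
      apply Real.exp_le_exp.2
      linarith
    have h7 : t j / 2 ≤ t j - t (j + 1) := by have := t_succ_le j; linarith
    have h8 := t_pos j
    have h9 : 0 ≤ t j - t (j + 1) := by linarith
    calc M ≤ L / 2 * Real.exp (-2) := hL.1
      _ ≤ (n * t j) / 2 * Real.exp (-2) := by gcongr
      _ = n * (t j / 2 * Real.exp (-2)) := by ring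
      _ ≤ n * ((t j - t (j + 1)) * (1 - t (j + 1)) ^ n) := by
          gcongr
  · obtain ⟨i, hi⟩ : ∃ i, j = i + 1 := ⟨j - 1, by omega⟩
    refine ⟨i, by omega, ?_⟩
    rw [hi] at h1 hcase
    have h5 := one_sub_pow_ge (t_pos (i + 1)).le (hthalf i) n
    have h6 : Real.exp (-(2 * L)) ≤ (1 - t (i + 1)) ^ n := by
      refine le_trans ?_ h5
      apply Real.exp_le_exp.2
      linarith
    have h7 : t i / 2 ≤ t i - t (i + 1) := by have := t_succ_le i; linarith
    have h8 := t_pos i
    have h9 : (2:ℝ) ^ (2 * i + 1) ≤ n * t i := by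
      rw [t_succ, one_div, inv_pow, ← mul_assoc, ← div_eq_mul_inv, le_div_iff₀ (by positivity)] at h1
      linarith
    have h10 : 0 ≤ t i - t (i + 1) := by linarith
    calc M ≤ 2 ^ (2 * i) * (Real.exp (-(2 * L)) / 8) := hj0 i (by omega)
      _ ≤ 2 ^ (2 * i + 1) / 2 * Real.exp (-(2 * L)) := by
          rw [pow_succ]
          have : 0 < (2:ℝ) ^ (2 * i) * Real.exp (-(2 * L)) := by positivity
          linarith
      _ ≤ (n * t i) / 2 * Real.exp (-(2 * L)) := by gcongr
      _ = n * (t i / 2 * Real.exp (-(2 * L))) := by ring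
      _ ≤ n * ((t i - t (i + 1)) * (1 - t (i + 1)) ^ n) := by
          gcongr

theorem tendsto_hamiltonProb : Tendsto (hamiltonProb volume Wex) atTop (𝓝 0) := by
  rw [ENNReal.tendsto_nhds_zero]
  intro ε hε
  obtain ⟨M, hM⟩ : ∃ M : ℝ, ENNReal.ofReal (Real.exp (-M)) ≤ ε := by
    have h1 : Tendsto (fun M : ℝ => ENNReal.ofReal (Real.exp (-M))) atTop (𝓝 (ENNReal.ofReal 0)) :=
      ENNReal.tendsto_ofReal (Real.tendsto_exp_neg_atTop_nhds_zero)
    rw [ENNReal.ofReal_zero] at h1
    exact ((ENNReal.tendsto_nhds_zero.1 h1) ε hε).exists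
  filter_upwards [exponent_large M, eventually_ge_atTop 2] with n hn hn2
  obtain ⟨j, hj1, hj2⟩ := hn
  refine (prob_bound hn2 hj1).trans (le_trans ?_ hM)
  apply ENNReal.ofReal_le_ofReal
  apply Real.exp_le_exp.2
  linarith

/-- There is a graphon on `[0,1]` satisfying none of the conditions (i)-(iv), whose random graphs
are Hamiltonian with probability tending to `0`. -/
theorem result : ∃ W : Graphon I,
    IsConnected volume W ∧ ¬ ManyLowDegree volume W ∧ ¬ HasNarrowPeninsula volume W ∧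
    ¬ IsHalfBipartite volume W ∧ Tendsto (hamiltonProb volume W) atTop (𝓝 0) :=
  ⟨Wex, isConnected_Wex, not_manyLowDegree, not_narrowPeninsula, not_halfBipartite,
    tendsto_hamiltonProb⟩

end Pool.Agent.Results.MP_e2d9cc_pr.NonHamiltonianGraphon
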